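import Pool.Agent.Run7.h500.RD.Stm2
/-! # Piece TRANS2 (helper67), adapted from the piece TRANS of helper417 -/
set_option autoImplicit false

open MeasureTheory Filter Topology Set

namespace Pool.Agent.Run7.h67.RD2

open Pool.Agent.Run7.h500.RD

/-- the translation -/
noncomputable def fa (y0 : ℝ) : (ℝ × ℝ) ≃ᵐ (ℝ × ℝ) :=
  MeasurableEquiv.prodCongr (MeasurableEquiv.refl ℝ) (MeasurableEquiv.addRight y0)

lemma fa_mp (y0 : ℝ) : MeasurePreserving (fa y0 : ℝ × ℝ → ℝ × ℝ) volume volume :=
  (MeasurePreserving.id (volume : Measure ℝ)).prod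
    (measurePreserving_add_right (volume : Measure ℝ) y0)

noncomputable def ga (y0 : ℝ) : (ℝ × (ℝ × ℝ)) ≃ᵐ (ℝ × (ℝ × ℝ)) :=
  MeasurableEquiv.prodCongr (MeasurableEquiv.refl ℝ) (fa y0)

lemma ga_mp (y0 : ℝ) : MeasurePreserving (ga y0 : ℝ × (ℝ × ℝ) → ℝ × (ℝ × ℝ)) volume volume :=
  (MeasurePreserving.id (volume : Measure ℝ)).prod (fa_mp y0)

lemma comparison (F s c L ρ0 : ℝ) (h0 : 0 < ρ0) (h1 : ρ0 < 1) (hc : |c| ≤ L) :
    |F * Real.exp (-(|s| ^ ρ0))| ≤ Real.exp (L ^ ρ0) * |F * Real.exp (-(|s - c| ^ ρ0))| := by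
  rw [abs_mul, abs_mul, Real.abs_exp, Real.abs_exp]
  have h3 : |s - c| ^ ρ0 ≤ |s| ^ ρ0 + L ^ ρ0 := by
    have e1 : |s - c| ≤ |s| + |c| := abs_sub s c
    have e2 : |s - c| ^ ρ0 ≤ (|s| + |c|) ^ ρ0 :=
      Real.rpow_le_rpow (abs_nonneg _) e1 h0.le
    have e3 : (|s| + |c|) ^ ρ0 ≤ |s| ^ ρ0 + |c| ^ ρ0 :=
      Real.rpow_add_le_add_rpow (abs_nonneg _) (abs_nonneg _) h0.le h1.le
    have e4 : |c| ^ ρ0 ≤ L ^ ρ0 := Real.rpow_le_rpow (abs_nonneg _) hc h0.le
    linarith
  have h4 : Real.exp (-(|s| ^ ρ0)) ≤ Real.exp (L ^ ρ0) * Real.exp (-(|s - c| ^ ρ0)) := by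
    rw [← Real.exp_add]
    apply Real.exp_le_exp.2
    linarith
  calc |F| * Real.exp (-(|s| ^ ρ0)) ≤ |F| * (Real.exp (L ^ ρ0) * Real.exp (-(|s - c| ^ ρ0))) :=
        mul_le_mul_of_nonneg_left h4 (abs_nonneg F)
    _ = Real.exp (L ^ ρ0) * (|F| * Real.exp (-(|s - c| ^ ρ0))) := by ring

theorem t_TRANS2 : S_TRANS2 := by
  intro f ρ0 m C h0 h1ρ hf y0
  have hC : 0 ≤ C := by
    have h := hf.growth 0 0
    simp at h
    exact (abs_nonneg _).trans h
  have hgc : Continuous fun z : ℝ × ℝ => f (z.1, z.2 + y0) :=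
    hf.cont.comp (continuous_fst.prodMk (continuous_snd.add continuous_const))
  refine ⟨C * (1 + |y0|) ^ m, ?_, ?_, ?_, ?_, ?_⟩
  · exact hgc
  · intro x y
    have h1 := hf.growth x (y + y0)
    refine h1.trans ?_
    rw [mul_assoc, ← mul_pow]
    apply mul_le_mul_of_nonneg_left _ hC
    apply pow_le_pow_left₀ (by positivity)
    have := abs_add_le y y0
    nlinarith [abs_nonneg x, abs_nonneg y, abs_nonneg y0]
  · intro a
    rcases hf.wint a with h | ⟨δ, hδ, h⟩
    · left
      have h1 := (fa_mp y0).integrable_comp_of_integrable h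
      have h2 := h1.norm.const_mul (Real.exp (|a * y0| ^ ρ0))
      refine h2.mono' ?_ (Eventually.of_forall fun z => ?_)
      · apply Continuous.aestronglyMeasurable
        apply hgc.mul
        apply Real.continuous_exp.comp
        apply Continuous.neg
        apply Continuous.rpow_const
        · fun_prop
        · intro z
          exact Or.inr h0.le
      · show |f (z.1, z.2 + y0) * Real.exp (-(|z.1 - a * z.2| ^ ρ0))| ≤
          Real.exp (|a * y0| ^ ρ0) *
            |f (z.1, z.2 + y0) * Real.exp (-(|z.1 - a * (z.2 + y0)| ^ ρ0))|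
        have h3 := comparison (f (z.1, z.2 + y0)) (z.1 - a * z.2) (a * y0) (|a * y0|) ρ0 h0 h1ρ
          le_rfl
        have e : z.1 - a * z.2 - a * y0 = z.1 - a * (z.2 + y0) := by ring
        rw [e] at h3
        exact h3
    · right
      refine ⟨δ, hδ, ?_⟩
      have h1 := ((ga_mp y0).integrableOn_comp_preimage (ga y0).measurableEmbedding).mpr h
      have e2 : (ga y0 : ℝ × (ℝ × ℝ) → ℝ × (ℝ × ℝ)) ⁻¹' (Ioo (a - δ) (a + δ) ×ˢ univ)
          = Ioo (a - δ) (a + δ) ×ˢ univ := by
        ext t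
        constructor
        · rintro ⟨h1, _⟩
          exact ⟨h1, mem_univ _⟩
        · rintro ⟨h1, _⟩
          exact ⟨h1, mem_univ _⟩
      rw [e2] at h1
      have h2 := h1.norm.const_mul (Real.exp (((|a| + δ) * |y0|) ^ ρ0))
      refine h2.mono' ?_ ?_
      · apply Continuous.aestronglyMeasurable
        apply Continuous.mul
        · exact hgc.comp continuous_snd
        · apply Real.continuous_exp.comp
          apply Continuous.neg
          apply Continuous.rpow_const
          · fun_prop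
          · intro z
            exact Or.inr h0.le
      · rw [ae_restrict_iff' (measurableSet_Ioo.prod MeasurableSet.univ)]
        refine Eventually.of_forall fun t ht => ?_
        show |f (t.2.1, t.2.2 + y0) * Real.exp (-(|t.2.1 - t.1 * t.2.2| ^ ρ0))| ≤
          Real.exp (((|a| + δ) * |y0|) ^ ρ0) *
            |f (t.2.1, t.2.2 + y0) * Real.exp (-(|t.2.1 - t.1 * (t.2.2 + y0)| ^ ρ0))|
        have ht1 : |t.1| ≤ |a| + δ := by
          have h5 := ht.1.1
          have h6 := ht.1.2
          rw [abs_le]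
          constructor
          · have := neg_abs_le a
            linarith
          · have := le_abs_self a
            linarith
        have hL : |t.1 * y0| ≤ (|a| + δ) * |y0| := by
          rw [abs_mul]
          exact mul_le_mul_of_nonneg_right ht1 (abs_nonneg y0)
        have h3 := comparison (f (t.2.1, t.2.2 + y0)) (t.2.1 - t.1 * t.2.2) (t.1 * y0)
          ((|a| + δ) * |y0|) ρ0 h0 h1ρ hL
        have e : t.2.1 - t.1 * t.2.2 - t.1 * y0 = t.2.1 - t.1 * (t.2.2 + y0) := by ring
        rw [e] at h3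
        exact h3
  · intro a b
    have h1 := integral_add_right_eq_self (μ := (volume : Measure ℝ))
      (fun y : ℝ => f ((b - a * y0) + a * y, y)) y0
    rw [hf.zero a (b - a * y0)] at h1
    have e : ∀ y : ℝ, f (b + a * y, y + y0) = f ((b - a * y0) + a * (y + y0), y + y0) := by
      intro y
      congr 2
      ring
    simp only [e]
    exact h1
  · intro y
    exact hf.hor (y + y0)

end Pool.Agent.Run7.h67.RD2
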