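import Pool.Agent.Run7.h500.RD.Stm2
/-! # Piece HOL2 (helper67), adapted from the pieces HOL (helper62) and BND (helper961) of RD -/
set_option autoImplicit false
open MeasureTheory Filter Topology Set

namespace Pool.Agent.Run7.h67.RD2
open Pool.Agent.Run7.h500.RD

/-- Tonelli after a shear. -/
theorem key (G H : ℝ → ENNReal) (hG : Measurable G) (hH : Measurable H) (u b : ℝ) :
    ∫⁻ z in up, G (z.1 - u * z.2 - b) * H z.2 = (∫⁻ s, G s) * ∫⁻ y in Ioi (0:ℝ), H y := by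
  have hup : (up : Set (ℝ × ℝ)) = (univ : Set ℝ) ×ˢ (Ioi (0:ℝ)) := by
    ext z; simp [up]
  rw [hup, Measure.volume_eq_prod, ← Measure.prod_restrict, Measure.restrict_univ]
  rw [lintegral_prod_symm _ (by fun_prop)]
  have h1 : ∀ y : ℝ, ∫⁻ x : ℝ, G (x - u * y - b) * H y = (∫⁻ s, G s) * H y := by
    intro y
    rw [lintegral_mul_const _ (by fun_prop)]
    congr 1
    have h2 : ∀ x : ℝ, G (x - u * y - b) = (fun s => G s) (x - (u * y + b)) := by
      intro x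
      show G _ = G _
      congr 1; ring
    simp_rw [h2]
    exact lintegral_sub_right_eq_self (fun s => G s) (u * y + b)
  simp_rw [h1]
  rw [lintegral_const_mul _ hH]

theorem q_facts (c w : ℂ) (z : ℝ × ℝ) :
    (z.2 * w.im + c.im ≤ ‖w * (z.2 : ℂ) - (z.1 : ℂ) + c‖) ∧
    (|z.1 - w.re * z.2 - c.re| ≤ ‖w * (z.2 : ℂ) - (z.1 : ℂ) + c‖) := by
  constructor
  · have h1 : (w * (z.2 : ℂ) - (z.1 : ℂ) + c).im = z.2 * w.im + c.im := by
      simp [Complex.add_im, Complex.sub_im, Complex.mul_im]; ring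
    calc z.2 * w.im + c.im ≤ |z.2 * w.im + c.im| := le_abs_self _
      _ = |(w * (z.2 : ℂ) - (z.1 : ℂ) + c).im| := by rw [h1]
      _ ≤ _ := Complex.abs_im_le_norm _
  · have h1 : (w * (z.2 : ℂ) - (z.1 : ℂ) + c).re = - (z.1 - w.re * z.2 - c.re) := by
      simp [Complex.add_re, Complex.sub_re, Complex.mul_re]; ring
    calc |z.1 - w.re * z.2 - c.re| = |(w * (z.2 : ℂ) - (z.1 : ℂ) + c).re| := by
          rw [h1, abs_neg]
      _ ≤ _ := Complex.abs_re_le_norm _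

/-- `1 + |x| + |y| ≤ T |q|`, `T ≤ 2 K (1 + |w|) / η`. -/
theorem lin_bound (c w : ℂ) (hc : 0 < c.im) (hw : 0 < w.im) (z : ℝ × ℝ) (hz : 0 < z.2) :
    1 + |z.1| + |z.2| ≤
      (2 * (1 + (1 + |c.re|) / c.im) * (1 + ‖w‖) / w.im) *
        ‖w * (z.2 : ℂ) - (z.1 : ℂ) + c‖ := by
  obtain ⟨h1, h2⟩ := q_facts c w z
  set Q := ‖w * (z.2 : ℂ) - (z.1 : ℂ) + c‖ with hQ
  have hη : w.im ≤ ‖w‖ := le_trans (le_abs_self _) (Complex.abs_im_le_norm w)
  have hu : |w.re| ≤ ‖w‖ := Complex.abs_re_le_norm w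
  have hy : |z.2| = z.2 := abs_of_pos hz
  have hQ0 : 0 < Q := lt_of_lt_of_le (by positivity) h1
  have e1 : z.2 * w.im ≤ Q := by linarith
  have e2 : c.im ≤ Q := by nlinarith [mul_pos hz hw]
  have e3 : z.2 ≤ Q / w.im := by rw [le_div_iff₀ hw]; exact e1
  have e4 : 1 ≤ Q / c.im := by rw [le_div_iff₀ hc]; linarith
  have e5 : |z.1| ≤ Q + |w.re| * (Q / w.im) + |c.re| * (Q / c.im) := by
    have h3 : z.1 = (z.1 - w.re * z.2 - c.re) + w.re * z.2 + c.re := by ring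
    calc |z.1| = |(z.1 - w.re * z.2 - c.re) + w.re * z.2 + c.re| := by rw [← h3]
      _ ≤ |(z.1 - w.re * z.2 - c.re)| + |w.re * z.2| + |c.re| := abs_add_three _ _ _
      _ ≤ Q + |w.re| * (Q / w.im) + |c.re| * (Q / c.im) := by
          rw [abs_mul, hy]
          have t1 : |w.re| * z.2 ≤ |w.re| * (Q / w.im) :=
            mul_le_mul_of_nonneg_left e3 (abs_nonneg _)
          have t2 : |c.re| * 1 ≤ |c.re| * (Q / c.im) :=
            mul_le_mul_of_nonneg_left e4 (abs_nonneg _)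
          linarith
  have e6 : 1 + |z.1| + |z.2| ≤ Q * ((1 + |c.re|) / c.im + 1 + (1 + |w.re|) / w.im) := by
    rw [hy]
    have : Q * ((1 + |c.re|) / c.im + 1 + (1 + |w.re|) / w.im) =
      Q / c.im + |c.re| * (Q / c.im) + Q + Q / w.im + |w.re| * (Q / w.im) := by
      field_simp
      ring
    rw [this]; linarith
  have e7 : (1 + |c.re|) / c.im + 1 + (1 + |w.re|) / w.im ≤
      2 * (1 + (1 + |c.re|) / c.im) * (1 + ‖w‖) / w.im := by
    set K := 1 + (1 + |c.re|) / c.im with hK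
    have hK1 : 1 ≤ K := by
      rw [hK]
      have : 0 ≤ (1 + |c.re|) / c.im := by positivity
      linarith
    have g1 : (1 + |c.re|) / c.im + 1 = K := by rw [hK]; ring
    rw [g1]
    rw [le_div_iff₀ hw]
    have g2 : (K + (1 + |w.re|) / w.im) * w.im = K * w.im + (1 + |w.re|) := by
      field_simp
    rw [g2]
    nlinarith [norm_nonneg w, abs_nonneg w.re]
  calc 1 + |z.1| + |z.2| ≤ Q * ((1 + |c.re|) / c.im + 1 + (1 + |w.re|) / w.im) := e6
    _ ≤ Q * (2 * (1 + (1 + |c.re|) / c.im) * (1 + ‖w‖) / w.im) :=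
        mul_le_mul_of_nonneg_left e7 hQ0.le
    _ = _ := by ring

/-- the pointwise bound -/
theorem pt_bound (f : ℝ × ℝ → ℝ) (m k : ℕ) (C : ℝ) (hk : m + 3 ≤ k)
    (hgr : ∀ x y : ℝ, |f (x, y)| ≤ C * (1 + |x| + |y|) ^ m) (c w : ℂ)
    (hc : 0 < c.im) (hw : 0 < w.im) (z : ℝ × ℝ) (hz : 0 < z.2) :
    ‖(f z : ℂ) * ker k c w z‖ ≤
      (C * ((c.im) ^ (k - m - 3))⁻¹ * (1 + 1 / c.im) ^ (3/2 : ℝ) *
        (2 * (1 + (1 + |c.re|) / c.im) * (1 + ‖w‖) / w.im) ^ m) *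
      ((1 + |z.1 - w.re * z.2 - c.re|) ^ (-(3/2) : ℝ) *
        (w.im * z.2 + c.im) ^ (-(3/2) : ℝ)) := by
  obtain ⟨h1, h2⟩ := q_facts c w z
  have h3 := lin_bound c w hc hw z hz
  have hC : 0 ≤ C := by
    have := hgr 0 0
    have h0 : 0 ≤ |f (0, 0)| := abs_nonneg _
    simp at this
    linarith
  have hg : |f z| ≤ C * (1 + |z.1| + |z.2|) ^ m := hgr z.1 z.2
  unfold Pool.Agent.Run7.h500.RD.ker
  rw [norm_mul, norm_inv, norm_pow, Complex.norm_real, Real.norm_eq_abs]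
  set Q := ‖w * (z.2 : ℂ) - (z.1 : ℂ) + c‖ with hQ
  set T := 2 * (1 + (1 + |c.re|) / c.im) * (1 + ‖w‖) / w.im with hT
  set s := |z.1 - w.re * z.2 - c.re| with hs
  have hs0 : 0 ≤ s := abs_nonneg _
  have hT0 : 0 < T := by positivity
  have hρ : 0 < w.im * z.2 + c.im := by positivity
  have h1' : w.im * z.2 + c.im ≤ Q := by linarith [mul_comm w.im z.2]
  have hQ0 : 0 < Q := lt_of_lt_of_le hρ h1'
  have hcQ : c.im ≤ Q := by nlinarith [mul_pos hw hz]
  have a1 : |f z| ≤ C * T ^ m * Q ^ m := by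
    calc |f z| ≤ C * (1 + |z.1| + |z.2|) ^ m := hg
      _ ≤ C * (T * Q) ^ m := by
          apply mul_le_mul_of_nonneg_left _ hC
          exact pow_le_pow_left₀ (by positivity) h3 m
      _ = C * T ^ m * Q ^ m := by rw [mul_pow]; ring
  have a2 : Q ^ k = Q ^ m * Q ^ (k - m - 3) * Q ^ 3 := by
    rw [← pow_add, ← pow_add]; congr 1; omega
  have a3 : (Q ^ 3) = Q ^ (3/2 : ℝ) * Q ^ (3/2 : ℝ) := by
    rw [← Real.rpow_add hQ0]
    norm_num
  have b1 : (Q ^ (3/2 : ℝ))⁻¹ ≤ (w.im * z.2 + c.im) ^ (-(3/2) : ℝ) := by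
    rw [Real.rpow_neg hρ.le]
    apply inv_anti₀ (Real.rpow_pos_of_pos hρ _)
    exact Real.rpow_le_rpow hρ.le h1' (by norm_num)
  have b2 : (Q ^ (3/2 : ℝ))⁻¹ ≤ (1 + 1 / c.im) ^ (3/2 : ℝ) * (1 + s) ^ (-(3/2) : ℝ) := by
    have h4 : 1 + s ≤ (1 + 1 / c.im) * Q := by
      have h5 : 1 ≤ Q / c.im := by rw [le_div_iff₀ hc]; linarith
      have h6 : (1 + 1 / c.im) * Q = Q + Q / c.im := by field_simp
      rw [h6]; linarith
    have h7 : (1 + s) ^ (3/2 : ℝ) ≤ (1 + 1 / c.im) ^ (3/2 : ℝ) * Q ^ (3/2 : ℝ) := by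
      rw [← Real.mul_rpow (by positivity) hQ0.le]
      exact Real.rpow_le_rpow (by positivity) h4 (by norm_num)
    rw [Real.rpow_neg (by positivity)]
    rw [inv_le_iff_one_le_mul₀ (Real.rpow_pos_of_pos hQ0 _)]
    have h8 : 0 < (1 + s) ^ (3/2 : ℝ) := Real.rpow_pos_of_pos (by positivity) _
    have h9 : (1 + 1 / c.im) ^ (3/2 : ℝ) * ((1 + s) ^ (3/2 : ℝ))⁻¹ * Q ^ (3/2 : ℝ) =
      ((1 + 1 / c.im) ^ (3/2 : ℝ) * Q ^ (3/2 : ℝ)) / (1 + s) ^ (3/2 : ℝ) := by
      field_simp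
    rw [h9, le_div_iff₀ h8]; linarith
  have b3 : (Q ^ (k - m - 3))⁻¹ ≤ ((c.im) ^ (k - m - 3))⁻¹ := by
    apply inv_anti₀ (by positivity)
    exact pow_le_pow_left₀ hc.le hcQ _
  have hr : 0 < Q ^ (3/2 : ℝ) := Real.rpow_pos_of_pos hQ0 _
  calc |f z| * (Q ^ k)⁻¹ ≤ (C * T ^ m * Q ^ m) * (Q ^ k)⁻¹ :=
        mul_le_mul_of_nonneg_right a1 (by positivity)
    _ = (C * T ^ m) * ((Q ^ (k - m - 3))⁻¹ * ((Q ^ (3/2 : ℝ))⁻¹ * (Q ^ (3/2 : ℝ))⁻¹)) := by
        rw [a2, a3]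
        field_simp
    _ ≤ (C * T ^ m) * (((c.im) ^ (k - m - 3))⁻¹ *
          (((1 + 1 / c.im) ^ (3/2 : ℝ) * (1 + s) ^ (-(3/2) : ℝ)) *
            (w.im * z.2 + c.im) ^ (-(3/2) : ℝ))) := by
        apply mul_le_mul_of_nonneg_left _ (by positivity)
        apply mul_le_mul b3 _ (by positivity) (by positivity)
        apply mul_le_mul b2 b1 (by positivity) (by positivity)
    _ = _ := by ring

/-- the integrability part of BND, under the hypotheses that it uses -/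
theorem int_ker (f : ℝ × ℝ → ℝ) (m k : ℕ) (C : ℝ) (hcont : Continuous f) (hk : m + 3 ≤ k)
    (hgr : ∀ x y : ℝ, |f (x, y)| ≤ C * (1 + |x| + |y|) ^ m) (c w : ℂ)
    (hc : 0 < c.im) (hw : 0 < w.im) :
    IntegrableOn (fun z => (f z : ℂ) * ker k c w z) up := by
  have hC : 0 ≤ C := by
    have := hgr 0 0
    have h0 : 0 ≤ |f (0, 0)| := abs_nonneg _
    simp at this
    linarith
  set g1 : ℝ → ℝ := fun s => (1 + |s|) ^ (-(3/2) : ℝ) with hg1
  set h1 : ℝ → ℝ := fun t => (t + c.im) ^ (-(3/2) : ℝ) with hh1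
  have ig1 : Integrable g1 := by
    have := integrable_one_add_norm (E := ℝ) (μ := volume) (r := 3/2) (by norm_num)
    simpa [hg1, Real.norm_eq_abs] using this
  have ih1 : IntegrableOn h1 (Ioi 0) := by
    exact integrableOn_add_rpow_Ioi_of_lt (by norm_num) (by linarith)
  have g1n : ∀ s, 0 ≤ g1 s := fun s => Real.rpow_nonneg (by positivity) _
  set B : ℝ := (C * ((c.im) ^ (k - m - 3))⁻¹ * (1 + 1 / c.im) ^ (3/2 : ℝ) *
        (2 * (1 + (1 + |c.re|) / c.im) * (1 + ‖w‖) / w.im) ^ m) with hB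
  have hB0 : 0 ≤ B := by positivity
  have hmeas : Measurable (fun z : ℝ × ℝ => (f z : ℂ) * ker k c w z) := by
    have m1 : Measurable f := hcont.measurable
    unfold Pool.Agent.Run7.h500.RD.ker
    fun_prop
  have hpt : ∀ z : ℝ × ℝ, z ∈ up → ‖(f z : ℂ) * ker k c w z‖ₑ ≤
      ENNReal.ofReal B * (ENNReal.ofReal (g1 (z.1 - w.re * z.2 - c.re)) *
        ENNReal.ofReal (h1 (w.im * z.2))) := by
    intro z hz
    have hz' : 0 < z.2 := hz
    have := pt_bound f m k C hk hgr c w hc hw z hz'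
    rw [← ENNReal.ofReal_mul (g1n _), ← ENNReal.ofReal_mul hB0, ← ofReal_norm]
    exact ENNReal.ofReal_le_ofReal this
  have hupm : MeasurableSet up := by
    have : up = {z : ℝ × ℝ | 0 < z.2} := rfl
    rw [this]
    exact measurableSet_lt measurable_const measurable_snd
  have mg1 : Measurable g1 := by
    simp only [hg1]; fun_prop
  have mh1 : Measurable h1 := by
    simp only [hh1]; fun_prop
  have L1 : ∫⁻ s, ENNReal.ofReal (g1 s) < ⊤ := by
    rw [← ofReal_integral_eq_lintegral_ofReal ig1 (Eventually.of_forall g1n)]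
    exact ENNReal.ofReal_lt_top
  have hηi : IntegrableOn (fun y => h1 (w.im * y)) (Ioi 0) := by
    rw [integrableOn_Ioi_comp_mul_left_iff h1 0 hw, mul_zero]
    exact ih1
  have L2 : ∫⁻ y in Ioi (0:ℝ), ENNReal.ofReal (h1 (w.im * y)) < ⊤ := by
    rw [← ofReal_integral_eq_lintegral_ofReal hηi]
    · exact ENNReal.ofReal_lt_top
    apply (ae_restrict_iff' measurableSet_Ioi).mpr
    apply Eventually.of_forall
    intro t ht
    exact Real.rpow_nonneg (by have : (0:ℝ) < t := ht; positivity) _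
  refine ⟨hmeas.aestronglyMeasurable, ?_⟩
  calc ∫⁻ z in up, ‖(f z : ℂ) * ker k c w z‖ₑ ≤
        ∫⁻ z in up, ENNReal.ofReal B * (ENNReal.ofReal (g1 (z.1 - w.re * z.2 - c.re)) *
        ENNReal.ofReal (h1 (w.im * z.2))) := setLIntegral_mono' hupm hpt
      _ = ENNReal.ofReal B * ∫⁻ z in up, (ENNReal.ofReal (g1 (z.1 - w.re * z.2 - c.re)) *
        ENNReal.ofReal (h1 (w.im * z.2))) := by
          rw [lintegral_const_mul _ (by fun_prop)]
      _ = ENNReal.ofReal B * ((∫⁻ s, ENNReal.ofReal (g1 s)) *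
            ∫⁻ y in Ioi (0:ℝ), ENNReal.ofReal (h1 (w.im * y))) := by
          congr 1
          exact key (fun s => ENNReal.ofReal (g1 s)) (fun y => ENNReal.ofReal (h1 (w.im * y)))
            (by fun_prop) (by fun_prop) w.re c.re
      _ < ⊤ := ENNReal.mul_lt_top ENNReal.ofReal_lt_top (ENNReal.mul_lt_top L1 L2)

theorem t_HOL2 : S_HOL2 := by
  intro hKER f ρ0 m k C hmk h ρ ε hpar c hc w0 hw0
  obtain ⟨hE1, -, hE3, hE4⟩ := hKER ρ ε (hpar.h0.trans hpar.h1) hpar.h2 hpar.h3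
  have hη : 0 < w0.im := hw0
  have hint0 := int_ker f m (k - 1) C h.cont (by omega) h.growth c w0 hc hη
  have hint1 := int_ker f m k C h.cont (by omega) h.growth c w0 hc hη
  have hk0 : k ≠ 0 := by omega
  -- lower bounds
  have hL0 : ∀ z : ℝ × ℝ, 0 < z.2 → w0.im * z.2 ≤ ‖w0 * (z.2 : ℂ) - (z.1 : ℂ) + c‖ := by
    intro z hz
    have h1 := Complex.abs_im_le_norm (w0 * (z.2 : ℂ) - (z.1 : ℂ) + c)
    have h2 : (w0 * (z.2 : ℂ) - (z.1 : ℂ) + c).im = w0.im * z.2 + c.im := by simp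
    rw [h2] at h1
    have h3 : 0 ≤ w0.im * z.2 := by positivity
    have h4 := le_abs_self (w0.im * z.2 + c.im)
    linarith
  have hLp : ∀ z : ℝ × ℝ, 0 < z.2 → 0 < ‖w0 * (z.2 : ℂ) - (z.1 : ℂ) + c‖ := by
    intro z hz
    have : 0 < w0.im * z.2 := by positivity
    exact this.trans_le (hL0 z hz)
  have hLw : ∀ z : ℝ × ℝ, 0 < z.2 → ∀ w ∈ Metric.ball w0 (w0.im / 2),
      ‖w0 * (z.2 : ℂ) - (z.1 : ℂ) + c‖ / 2 ≤ ‖w * (z.2 : ℂ) - (z.1 : ℂ) + c‖ := by
    intro z hz w hw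
    have h1 : w0 * (z.2 : ℂ) - (z.1 : ℂ) + c
        = (w * (z.2 : ℂ) - (z.1 : ℂ) + c) + (w0 - w) * (z.2 : ℂ) := by ring
    have h2 : ‖w0 * (z.2 : ℂ) - (z.1 : ℂ) + c‖
        ≤ ‖w * (z.2 : ℂ) - (z.1 : ℂ) + c‖ + ‖w0 - w‖ * z.2 := by
      calc ‖w0 * (z.2 : ℂ) - (z.1 : ℂ) + c‖
          = ‖(w * (z.2 : ℂ) - (z.1 : ℂ) + c) + (w0 - w) * (z.2 : ℂ)‖ := by rw [h1]
        _ ≤ ‖w * (z.2 : ℂ) - (z.1 : ℂ) + c‖ + ‖(w0 - w) * (z.2 : ℂ)‖ := norm_add_le _ _
        _ = ‖w * (z.2 : ℂ) - (z.1 : ℂ) + c‖ + ‖w0 - w‖ * z.2 := by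
            rw [norm_mul, Complex.norm_real, Real.norm_of_nonneg hz.le]
    have h3 : ‖w0 - w‖ < w0.im / 2 := by
      rw [← dist_eq_norm, dist_comm]; exact Metric.mem_ball.1 hw
    have h4 : ‖w0 - w‖ * z.2 ≤ w0.im / 2 * z.2 := by
      exact mul_le_mul_of_nonneg_right h3.le hz.le
    have h5 := hL0 z hz
    linarith
  have hIm : ∀ z : ℝ × ℝ, 0 < z.2 → ∀ w ∈ Metric.ball w0 (w0.im / 2),
      c.im ≤ (w * (z.2 : ℂ) - (z.1 : ℂ) + c).im := by
    intro z hz w hw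
    have h2 : (w * (z.2 : ℂ) - (z.1 : ℂ) + c).im = w.im * z.2 + c.im := by simp
    have h3 : ‖w0 - w‖ < w0.im / 2 := by
      rw [← dist_eq_norm, dist_comm]; exact Metric.mem_ball.1 hw
    have h4 := (Complex.abs_im_le_norm (w0 - w)).trans h3.le
    rw [Complex.sub_im] at h4
    have h5 := (abs_le.1 h4).2
    have h6 : 0 ≤ w.im := by linarith
    have h7 : 0 ≤ w.im * z.2 := mul_nonneg h6 hz.le
    rw [h2]
    linarith
  have hEm : Measurable (EE ρ ε) := by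
    unfold EE
    apply Complex.measurable_exp.comp
    apply Measurable.neg
    apply Measurable.const_mul
    exact (measurable_const.mul measurable_id).pow_const _
  have hmeasF : ∀ w : ℂ, Measurable (fun z : ℝ × ℝ =>
      (f z : ℂ) * Pool.Agent.Run7.h500.RD.ker2 ρ ε k c w z) := by
    intro w
    unfold Pool.Agent.Run7.h500.RD.ker2 Pool.Agent.Run7.h500.RD.ker
    have hf := h.cont.measurable
    have h1 : Measurable (fun z : ℝ × ℝ => EE ρ ε (w * (z.2 : ℂ) - (z.1 : ℂ) + c)) :=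
      hEm.comp (by fun_prop)
    fun_prop
  let F' : ℂ → ℝ × ℝ → ℂ := fun w z => (f z : ℂ) *
    ((-((k : ℂ) * (w * (z.2 : ℂ) - (z.1 : ℂ) + c) ^ (k - 1) * (z.2 : ℂ)) /
      ((w * (z.2 : ℂ) - (z.1 : ℂ) + c) ^ k) ^ 2) * EE ρ ε (w * (z.2 : ℂ) - (z.1 : ℂ) + c) +
     ((w * (z.2 : ℂ) - (z.1 : ℂ) + c) ^ k)⁻¹ *
      (deriv (EE ρ ε) (w * (z.2 : ℂ) - (z.1 : ℂ) + c) * (z.2 : ℂ)))
  have hmeasF' : Measurable (F' w0) := by
    have hf := h.cont.measurable
    have h1 : Measurable (fun z : ℝ × ℝ => EE ρ ε (w0 * (z.2 : ℂ) - (z.1 : ℂ) + c)) :=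
      hEm.comp (by fun_prop)
    have h2 : Measurable (fun z : ℝ × ℝ => deriv (EE ρ ε) (w0 * (z.2 : ℂ) - (z.1 : ℂ) + c)) :=
      (measurable_deriv (EE ρ ε)).comp (by fun_prop)
    simp only [F']
    fun_prop
  have hupm : MeasurableSet up := measurableSet_lt measurable_const measurable_snd
  set D : ℝ := k / c.im + ε * ρ * c.im ^ (ρ - 1) with hD
  have hερ : 0 ≤ ε * ρ := mul_nonneg hpar.h3.le (hpar.h0.trans hpar.h1).le
  have hintF : IntegrableOn (fun z : ℝ × ℝ =>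
      (f z : ℂ) * Pool.Agent.Run7.h500.RD.ker2 ρ ε k c w0 z) up := by
    refine Integrable.mono' hint1.norm (hmeasF w0).aestronglyMeasurable ?_
    refine (ae_restrict_iff' hupm).2 (Eventually.of_forall (fun z hz => ?_))
    have hz2 : 0 < z.2 := hz
    have hb := hE3 (w0 * (z.2 : ℂ) - (z.1 : ℂ) + c)
      (hc.trans_le (hIm z hz2 w0 (Metric.mem_ball_self (by positivity))))
    unfold Pool.Agent.Run7.h500.RD.ker2
    rw [← mul_assoc, norm_mul]
    exact mul_le_of_le_one_right (norm_nonneg _) hb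
  have key := hasDerivAt_integral_of_dominated_loc_of_deriv_le
    (μ := (volume : Measure (ℝ × ℝ)).restrict up)
    (F := fun w z => (f z : ℂ) * Pool.Agent.Run7.h500.RD.ker2 ρ ε k c w z) (F' := F')
    (x₀ := w0) (s := Metric.ball w0 (w0.im / 2))
    (bound := fun z => (D * 2 ^ k / w0.im) *
      ‖(f z : ℂ) * Pool.Agent.Run7.h500.RD.ker (k - 1) c w0 z‖)
    (Metric.ball_mem_nhds w0 (by positivity))
    (Eventually.of_forall (fun w => (hmeasF w).aestronglyMeasurable))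
    hintF hmeasF'.aestronglyMeasurable
    (by
      refine (ae_restrict_iff' hupm).2 (Eventually.of_forall (fun z hz w hw => ?_))
      have hz2 : 0 < z.2 := hz
      have hl := hLw z hz2 w hw
      have hp := hLp z hz2
      have h0 := hL0 z hz2
      have him := hIm z hz2 w hw
      simp only [F', Pool.Agent.Run7.h500.RD.ker]
      set L := w * (z.2 : ℂ) - (z.1 : ℂ) + c with hL
      set L0 := w0 * (z.2 : ℂ) - (z.1 : ℂ) + c with hL0d
      have hLpos : 0 < ‖L‖ := by linarith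
      have hLc : c.im ≤ ‖L‖ := him.trans ((le_abs_self _).trans (Complex.abs_im_le_norm L))
      have hLim : 0 < L.im := hc.trans_le him
      have b1 := hE3 L hLim
      have b2 := hE4 L hLim
      have b3 : ‖L‖ ^ (ρ - 1) ≤ c.im ^ (ρ - 1) :=
        Real.rpow_le_rpow_of_nonpos hc hLc (by linarith [hpar.h2])
      have n1 : ‖-((k : ℂ) * L ^ (k - 1) * (z.2 : ℂ)) / (L ^ k) ^ 2‖
          = k * z.2 / ‖L‖ ^ (k + 1) := by
        rw [norm_div, norm_neg, norm_mul, norm_mul, norm_pow, norm_pow, norm_pow,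
          Complex.norm_real, Complex.norm_natCast, Real.norm_of_nonneg hz2.le]
        rw [div_eq_div_iff (by positivity) (by positivity)]
        have : ‖L‖ ^ (k - 1) * ‖L‖ ^ (k + 1) = (‖L‖ ^ k) ^ 2 := by
          rw [← pow_add, ← pow_mul]; congr 1; omega
        calc (k : ℝ) * ‖L‖ ^ (k - 1) * z.2 * ‖L‖ ^ (k + 1)
            = k * z.2 * (‖L‖ ^ (k - 1) * ‖L‖ ^ (k + 1)) := by ring
          _ = k * z.2 * (‖L‖ ^ k) ^ 2 := by rw [this]
      have n2 : k * z.2 / ‖L‖ ^ (k + 1) ≤ (k / c.im) * (z.2 / ‖L‖ ^ k) := by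
        rw [div_mul_div_comm, pow_succ']
        exact div_le_div_of_nonneg_left (by positivity) (by positivity)
          (mul_le_mul_of_nonneg_right hLc (by positivity))
      have n3 : ‖(-((k : ℂ) * L ^ (k - 1) * (z.2 : ℂ)) / (L ^ k) ^ 2) * EE ρ ε L‖
          ≤ (k / c.im) * (z.2 / ‖L‖ ^ k) := by
        rw [norm_mul, n1]
        exact (mul_le_of_le_one_right (by positivity) b1).trans n2
      have n4 : ‖(L ^ k)⁻¹ * (deriv (EE ρ ε) L * (z.2 : ℂ))‖
          ≤ (ε * ρ * c.im ^ (ρ - 1)) * (z.2 / ‖L‖ ^ k) := by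
        rw [norm_mul, norm_mul, norm_inv, norm_pow, Complex.norm_real,
          Real.norm_of_nonneg hz2.le]
        have h5 : ‖deriv (EE ρ ε) L‖ ≤ ε * ρ * c.im ^ (ρ - 1) :=
          b2.trans (mul_le_mul_of_nonneg_left b3 hερ)
        calc (‖L‖ ^ k)⁻¹ * (‖deriv (EE ρ ε) L‖ * z.2)
            ≤ (‖L‖ ^ k)⁻¹ * ((ε * ρ * c.im ^ (ρ - 1)) * z.2) := by
              apply mul_le_mul_of_nonneg_left _ (by positivity)
              exact mul_le_mul_of_nonneg_right h5 hz2.le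
          _ = (ε * ρ * c.im ^ (ρ - 1)) * (z.2 / ‖L‖ ^ k) := by
              rw [div_eq_mul_inv]; ring
      have hD0 : 0 ≤ D := by
        rw [hD]
        have := Real.rpow_nonneg hc.le (ρ - 1)
        positivity
      have e2 : z.2 / ‖L‖ ^ k ≤ (‖L0‖ / w0.im) / (‖L0‖ / 2) ^ k := by
        apply div_le_div₀ (by positivity) _ (by positivity)
        · exact pow_le_pow_left₀ (by positivity) hl _
        · rw [le_div_iff₀ hη]; linarith
      have e3 : (‖L0‖ / w0.im) / (‖L0‖ / 2) ^ k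
          = (2 ^ k / w0.im) * (‖L0‖ ^ (k - 1))⁻¹ := by
        obtain ⟨k', rfl⟩ : ∃ k', k = k' + 1 := ⟨k - 1, by omega⟩
        rw [Nat.add_sub_cancel, div_pow, pow_succ ‖L0‖ k']
        field_simp
      rw [norm_mul, norm_mul, norm_inv, norm_pow, Complex.norm_real, Real.norm_eq_abs]
      calc |f z| * ‖(-((k : ℂ) * L ^ (k - 1) * (z.2 : ℂ)) / (L ^ k) ^ 2) * EE ρ ε L +
            (L ^ k)⁻¹ * (deriv (EE ρ ε) L * (z.2 : ℂ))‖
          ≤ |f z| * (D * (z.2 / ‖L‖ ^ k)) := by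
            apply mul_le_mul_of_nonneg_left _ (abs_nonneg _)
            refine (norm_add_le _ _).trans ?_
            rw [hD, add_mul]
            exact add_le_add n3 n4
        _ ≤ |f z| * (D * ((2 ^ k / w0.im) * (‖L0‖ ^ (k - 1))⁻¹)) := by
            apply mul_le_mul_of_nonneg_left _ (abs_nonneg _)
            apply mul_le_mul_of_nonneg_left _ hD0
            rw [← e3]
            exact e2
        _ = D * 2 ^ k / w0.im * (|f z| * (‖L0‖ ^ (k - 1))⁻¹) := by ring)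
    (hint0.norm.const_mul _)
    (by
      refine (ae_restrict_iff' hupm).2 (Eventually.of_forall (fun z hz w hw => ?_))
      have hz2 : 0 < z.2 := hz
      have hl := hLw z hz2 w hw
      have hp := hLp z hz2
      have him := hIm z hz2 w hw
      have hLne : w * (z.2 : ℂ) - (z.1 : ℂ) + c ≠ 0 := by
        intro h0
        rw [h0, norm_zero] at hl
        linarith
      have hd1 : HasDerivAt (fun w : ℂ => w * (z.2 : ℂ) - (z.1 : ℂ) + c) (z.2 : ℂ) w := by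
        have := (((hasDerivAt_id w).mul_const (z.2 : ℂ)).sub_const (z.1 : ℂ)).add_const c
        simpa using this
      have hd2 := hd1.pow k
      have hd3 := hd2.inv (pow_ne_zero k hLne)
      have hEd : HasDerivAt (EE ρ ε) (deriv (EE ρ ε) (w * (z.2 : ℂ) - (z.1 : ℂ) + c))
          (w * (z.2 : ℂ) - (z.1 : ℂ) + c) := by
        apply DifferentiableAt.hasDerivAt
        apply hE1.differentiableAt
        apply IsOpen.mem_nhds (isOpen_lt continuous_const Complex.continuous_im)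
        exact hc.trans_le him
      have hEd2 := hEd.comp w hd1
      have hd4 := (hd3.mul hEd2).const_mul (f z : ℂ)
      exact hd4)
  exact key.2.differentiableAt.differentiableWithinAt

end Pool.Agent.Run7.h67.RD2
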